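import Pool.Agent.X11.RotL

/-!
# MP_54f1ce_nt, Q1 (Cao): `N̄(p) ≥ N(p) ≥ 2` for every odd `p > 3`, `p ≡ 3 (mod 4)`

`IsCF p n l` says that the list `l` is the normalised simple continued fraction expansion of `p/n`;
`MSet p`, `MbarSet p` are the sets `M_p`, `M̄_p`, and `N p`, `Nbar p` their cardinalities
(all in `Pool/Agent/X11/RotCF.lean` and `Pool/Agent/X11/RotN.lean`).
-/

namespace Pool.Agent.Results.MP_54f1ce_nt.CaoInequality

open Finset Pool.Agent.X11.Rot

/-- Indicator of coprimality. -/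
def c (p n : ℕ) : ℤ := if Nat.Coprime p n then 1 else 0

theorem c_sub {p n : ℕ} (h : n ≤ p) : c p (p - n) = c p n := by
  have : Nat.Coprime p (p - n) ↔ Nat.Coprime p n := by
    rw [Nat.coprime_self_sub_right h]
  simp only [c, this]

theorem totient_eq {p : ℕ} (hp : 1 < p) : (Nat.totient p : ℤ) = ∑ n ∈ Ioo 0 p, c p n := by
  rw [Nat.totient, card_filter]
  push_cast
  symm
  apply sum_subset
  · intro n hn
    simp only [mem_Ioo, mem_range] at hn ⊢
    exact hn.2
  · intro n hn hn2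
    simp only [mem_Ioo, mem_range, not_and_or, not_lt] at hn hn2
    have : n = 0 := by omega
    subst this
    rw [c, if_neg]
    simp
    omega

theorem N_formula {m : ℕ} (hp : (2 * m + 1) % 4 = 3) :
    (N (2 * m + 1) : ℤ) = ∑ n ∈ Icc 1 m, (c (2 * m + 1) n - J (2 * m + 1) n) := by
  have h1 := Nbar_sub_N hp
  have h2 : (N (2 * m + 1) : ℤ) + Nbar (2 * m + 1) = Nat.totient (2 * m + 1) := by
    exact_mod_cast N_add_Nbar (2 * m + 1) (by omega)
  have h3 : (Nat.totient (2 * m + 1) : ℤ) = 2 * ∑ n ∈ Icc 1 m, c (2 * m + 1) n := by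
    rw [totient_eq (by omega), sum_split, mul_sum]
    apply sum_congr rfl
    intro n hn
    rw [mem_Icc] at hn
    rw [c_sub (by omega)]
    ring
  have h4 : ∑ n ∈ Icc 1 m, jacobiSym (n : ℤ) (2 * m + 1) = ∑ n ∈ Icc 1 m, J (2 * m + 1) n := rfl
  rw [sum_sub_distrib]
  rw [h4] at h1
  linarith

/-- **Cao's conjecture.**  (i) every `p/n` with `0 < n < p` has exactly one normalised expansion,
so that the sets `M_p`, `M̄_p` are well defined; (ii) for every `p > 3` with `p ≡ 3 (mod 4)`,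
prime or composite, `N̄(p) ≥ N(p) ≥ 2`. -/
theorem result :
    (∀ p n : ℕ, 0 < n → n < p → ∃! l : List ℕ, IsCF p n l) ∧
    (∀ p : ℕ, 3 < p → p % 4 = 3 → N p ≤ Nbar p ∧ 2 ≤ N p) := by
  refine ⟨fun p n h1 h2 => ⟨cf p n, isCF_cf h1 h2, fun l hl => (isCF_iff h1 h2 l).1 hl⟩, ?_⟩
  intro p hp3 hp
  obtain ⟨m, rfl⟩ : ∃ m, p = 2 * m + 1 := ⟨p / 2, by omega⟩
  constructor
  · have h1 := Nbar_sub_N hp
    have h2 := half_nonneg hp
    have h4 : ∑ n ∈ Icc 1 m, jacobiSym (n : ℤ) (2 * m + 1) = ∑ n ∈ Icc 1 m, J (2 * m + 1) n := rfl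
    rw [h4] at h1
    have : (N (2 * m + 1) : ℤ) ≤ Nbar (2 * m + 1) := by linarith
    exact_mod_cast this
  · have hterm : ∀ n ∈ Icc 1 m, 0 ≤ c (2 * m + 1) n - J (2 * m + 1) n := by
      intro n _
      by_cases hc : Nat.Coprime (2 * m + 1) n
      · rw [c, if_pos hc]
        rcases J_cases _ _ hc with h | h <;> rw [h] <;> norm_num
      · rw [c, if_neg hc, J_zero (by omega) hc]
        norm_num
    have hex : ∃ n ∈ Icc 1 m, J (2 * m + 1) n = -1 := by
      have hodd : Odd (2 * m + 1) := Nat.odd_iff.2 (by omega)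
      have h2 : J (2 * m + 1) 2 = 1 ∨ J (2 * m + 1) 2 = -1 :=
        J_cases _ _ (Nat.coprime_comm.1 (Nat.coprime_two_left.2 hodd))
      rcases h2 with h2 | h2
      · refine ⟨m, mem_Icc.2 ⟨by omega, le_rfl⟩, ?_⟩
        have h3 := J_sub (p := 2 * m + 1) (n := 1) (by omega)
        rw [J_neg_one_three hp, show 2 * m + 1 - 1 = 2 * m by omega, J_mul, h2, one_mul] at h3
        rw [h3]
        have : J (2 * m + 1) 1 = 1 := by
          rw [J]; push_cast; exact jacobiSym.one_left _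
        rw [this]
        norm_num
      · exact ⟨2, mem_Icc.2 ⟨by omega, by omega⟩, h2⟩
    obtain ⟨n, hn, hJ⟩ := hex
    have h5 := single_le_sum hterm hn
    have hc : Nat.Coprime (2 * m + 1) n := by
      by_contra hc
      rw [J_zero (by omega) hc] at hJ
      norm_num at hJ
    rw [← N_formula hp, hJ, c, if_pos hc] at h5
    norm_num at h5
    exact_mod_cast h5

end Pool.Agent.Results.MP_54f1ce_nt.CaoInequality
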